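import Mathlib

/-!
# Definitions for `MP_fc5d3b_co`: fixed polyominoes and the sequence of upper bounds

`t n` is the number of fixed `n`-ominoes. `beta n = (best n + 1) / 2 ^ n` is a sequence of
rationals, explicitly defined from the numbers `t m`.
-/

set_option autoImplicit false

namespace Pool.Agent.Helper47.Klarner

open Finset

/-- The square grid: cells are points of `ℤ²`, adjacent iff they share an edge. -/
def grid : SimpleGraph (ℤ × ℤ) :=
  SimpleGraph.fromRel (fun p q : ℤ × ℤ => |p.1 - q.1| + |p.2 - q.2| = 1)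

/-- `n`-ominoes: sets of `n` cells which are connected under edge-adjacency. -/
def Omino (n : ℕ) : Type :=
  {S : Finset (ℤ × ℤ) // S.card = n ∧ (grid.induce (S : Set (ℤ × ℤ))).Connected}

/-- Translation equivalence of `n`-ominoes: `T = S + v` for some `v ∈ ℤ²`. -/
def transSetoid (n : ℕ) : Setoid (Omino n) where
  r S T := ∃ v : ℤ × ℤ, T.1 = S.1.map (Equiv.addRight v).toEmbedding
  iseqv :=
    { refl := fun S => ⟨0, by
        have h : (Equiv.addRight (0 : ℤ × ℤ)).toEmbedding = Function.Embedding.refl _ := by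
          ext p <;> simp
        rw [h, Finset.map_refl]⟩
      symm := by
        rintro S T ⟨v, hv⟩
        refine ⟨-v, ?_⟩
        rw [hv, Finset.map_map]
        ext p
        simp
      trans := by
        rintro S T U ⟨v, hv⟩ ⟨w, hw⟩
        refine ⟨v + w, ?_⟩
        rw [hw, hv, Finset.map_map]
        congr 1
        ext p <;> simp [add_assoc] }

/-- `t n` is the number of fixed `n`-ominoes. -/
noncomputable def t (n : ℕ) : ℕ := Nat.card (Quotient (transSetoid n))

/-- `Ok n a`: `576 m³ t(m) ≤ (a / 2 ^ n) ^ m` for all `m` with `n + 1 ≤ m ≤ 5 (n + 1) + 1`. -/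
def Ok (n a : ℕ) : Prop :=
  ∀ m ∈ Icc (n + 1) (5 * (n + 1) + 1), 576 * m ^ 3 * t m * 2 ^ (n * m) ≤ a ^ m

/-- `num n` is the least `a` with `Ok n a`. -/
noncomputable def num (n : ℕ) : ℕ := sInf {a : ℕ | Ok n a}

/-- Running minimum: `best n / 2 ^ n = min_{k ≤ n} num k / 2 ^ k`. -/
noncomputable def best : ℕ → ℕ
  | 0 => num 0
  | n + 1 => min (2 * best n) (num (n + 1))

/-- The decreasing sequence of rational upper bounds for Klarner's constant. -/
noncomputable def beta (n : ℕ) : ℚ := ((best n + 1 : ℕ) : ℚ) / 2 ^ n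

end Pool.Agent.Helper47.Klarner
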