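import Mathlib
import Pool.Agent.Helper47.KlarnerDefs

/-!
# Proofs for `MP_fc5d3b_co`

*Balanced cut.* A connected set `S` of `N ≥ 2` cells is the disjoint union of two connected sets
`A`, `B` with `|A| ≤ |B|`, `N ≤ 5|A| + 1`, and `A`, `B` are joined by an edge (`balanced_cut`).
So the number `r(N)` of connected `N`-cell sets containing the origin satisfies
`r(N) ≤ ∑ 4 N r(m) r(N - m)`, the sum over all `m` with `(N - 1)/5 ≤ m ≤ N/2` (`rr_le`).

*Finite windows.* Therefore `576 m² r(m) ≤ L^m` for all `m ∈ [n, 5n+1]` implies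
`576 N² r(N) ≤ L^N` for all `N ≥ n` (`bound_step`), hence `λ ≤ L`. Since `t ≤ r ≤ n t`, this gives
`λ ≤ max_{n ≤ m ≤ 5n+1} (576 m³ t(m))^(1/m)`, and the right hand side converges to `λ`.

*Computability.* `t` is primitive recursive (`t_primrec`): subsets of the box `[-n, n]²` are coded
by the binary digits of numbers below `2 ^ ((2n+1)²)`, and connectivity is expressed with bounded
quantifiers.
-/

set_option autoImplicit false

namespace Pool.Agent.Helper47.Klarner

open Finset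

/-- explicit adjacency -/
def Adj (a b : ℤ × ℤ) : Prop :=
  (a.1 = b.1 ∧ (a.2 = b.2 + 1 ∨ b.2 = a.2 + 1)) ∨ (a.2 = b.2 ∧ (a.1 = b.1 + 1 ∨ b.1 = a.1 + 1))

lemma Adj.symm {a b : ℤ × ℤ} (h : Adj a b) : Adj b a := by
  unfold Adj at *; omega

lemma grid_adj (a b : ℤ × ℤ) : grid.Adj a b ↔ Adj a b := by
  unfold grid Adj
  rw [SimpleGraph.fromRel_adj]
  constructor
  · rintro ⟨hne, h⟩
    rcases abs_cases (a.1 - b.1) with h1 | h1 <;> rcases abs_cases (a.2 - b.2) with h2 | h2 <;>
    rcases abs_cases (b.1 - a.1) with h3 | h3 <;> rcases abs_cases (b.2 - a.2) with h4 | h4 <;>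
    rcases h with h | h <;> omega
  · intro h
    refine ⟨?_, Or.inl ?_⟩
    · rintro rfl
      omega
    · rcases abs_cases (a.1 - b.1) with h1 | h1 <;> rcases abs_cases (a.2 - b.2) with h2 | h2 <;>
      omega

/-- cut form of connectivity -/
def Conn (S : Finset (ℤ × ℤ)) : Prop :=
  S.Nonempty ∧ ∀ X ⊆ S, X.Nonempty → X ≠ S → ∃ x ∈ X, ∃ y ∈ S, y ∉ X ∧ Adj x y

lemma conn_iff (S : Finset (ℤ × ℤ)) :
    Conn S ↔ (grid.induce (S : Set (ℤ × ℤ))).Connected := by
  classical
  constructor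
  · rintro ⟨⟨v, hv⟩, hS⟩
    have : Nonempty (S : Set (ℤ × ℤ)) := ⟨⟨v, hv⟩⟩
    refine SimpleGraph.Connected.mk ?_
    -- everything is reachable from v
    have key : ∀ u : (S : Set (ℤ × ℤ)), (grid.induce (S : Set (ℤ × ℤ))).Reachable ⟨v, hv⟩ u := by
      set X : Finset (ℤ × ℤ) := S.filter (fun p => ∃ hp : p ∈ S,
        (grid.induce (S : Set (ℤ × ℤ))).Reachable ⟨v, hv⟩ ⟨p, hp⟩) with hX
      by_cases hXS : X = S
      · rintro ⟨u, hu⟩
        have : u ∈ X := by rw [hXS]; exact hu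
        rw [hX, mem_filter] at this
        obtain ⟨_, hp, hr⟩ := this
        exact hr
      · exfalso
        obtain ⟨x, hx, y, hy, hyX, hxy⟩ := hS X (filter_subset _ _)
          ⟨v, by rw [hX, mem_filter]; exact ⟨hv, hv, SimpleGraph.Reachable.refl _⟩⟩ hXS
        apply hyX
        rw [hX, mem_filter] at hx ⊢
        obtain ⟨hxS, hxS', hr⟩ := hx
        refine ⟨hy, hy, hr.trans (SimpleGraph.Adj.reachable ?_)⟩
        rw [SimpleGraph.comap_adj]
        exact (grid_adj _ _).2 hxy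
    intro a b
    exact (key a).symm.trans (key b)
  · intro h
    refine ⟨?_, ?_⟩
    · obtain ⟨⟨v, hv⟩⟩ := h.nonempty
      exact ⟨v, hv⟩
    · intro X hXS hX hne
      obtain ⟨x, hx⟩ := hX
      have : ∃ y ∈ S, y ∉ X := by
        by_contra hcon
        push Not at hcon
        exact hne (Subset.antisymm hXS hcon)
      obtain ⟨y, hy, hyX⟩ := this
      obtain ⟨w⟩ := h.preconnected ⟨x, hXS hx⟩ ⟨y, hy⟩
      obtain ⟨d, hd, hd1, hd2⟩ := w.exists_boundary_dart {p | (p : ℤ × ℤ) ∈ X} hx hyX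
      refine ⟨d.fst, hd1, d.snd, d.snd.2, hd2, ?_⟩
      have := d.adj
      rw [SimpleGraph.comap_adj] at this
      exact (grid_adj _ _).1 this

lemma conn_singleton (c : ℤ × ℤ) : Conn {c} := by
  refine ⟨singleton_nonempty c, ?_⟩
  intro X hX hne hX'
  rcases subset_singleton_iff.1 hX with h | h
  · rw [h] at hne; exact absurd hne (by simp)
  · exact absurd h hX'

lemma conn_union {A B : Finset (ℤ × ℤ)} (hA : Conn A) (hB : Conn B)
    {a b : ℤ × ℤ} (ha : a ∈ A) (hb : b ∈ B) (hab : Adj a b) : Conn (A ∪ B) := by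
  classical
  refine ⟨hA.1.mono subset_union_left, ?_⟩
  intro X hX hne hX'
  by_cases h1 : (X ∩ A).Nonempty ∧ X ∩ A ≠ A
  · obtain ⟨x, hx, y, hy, hyX, hxy⟩ := hA.2 (X ∩ A) inter_subset_right h1.1 h1.2
    rw [mem_inter] at hx
    refine ⟨x, hx.1, y, mem_union_left _ hy, fun h => hyX (mem_inter.2 ⟨h, hy⟩), hxy⟩
  by_cases h2 : (X ∩ B).Nonempty ∧ X ∩ B ≠ B
  · obtain ⟨x, hx, y, hy, hyX, hxy⟩ := hB.2 (X ∩ B) inter_subset_right h2.1 h2.2
    rw [mem_inter] at hx
    refine ⟨x, hx.1, y, mem_union_right _ hy, fun h => hyX (mem_inter.2 ⟨h, hy⟩), hxy⟩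
  -- now X ∩ A is empty or A, X ∩ B is empty or B
  by_cases haX : a ∈ X
  · have hAX : X ∩ A = A := by
      by_contra h
      exact h1 ⟨⟨a, mem_inter.2 ⟨haX, ha⟩⟩, h⟩
    by_cases hbX : b ∈ X
    · have hBX : X ∩ B = B := by
        by_contra h
        exact h2 ⟨⟨b, mem_inter.2 ⟨hbX, hb⟩⟩, h⟩
      exfalso
      apply hX'
      apply Subset.antisymm hX
      apply union_subset
      · rw [← hAX]; exact inter_subset_left
      · rw [← hBX]; exact inter_subset_left
    · exact ⟨a, haX, b, mem_union_right _ hb, hbX, hab⟩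
  · by_cases hbX : b ∈ X
    · exact ⟨b, hbX, a, mem_union_left _ ha, haX, hab.symm⟩
    · -- X ∩ A ≠ A and X ∩ B ≠ B hence both empty
      exfalso
      obtain ⟨x, hx⟩ := hne
      rcases mem_union.1 (hX hx) with h | h
      · apply h1
        refine ⟨⟨x, mem_inter.2 ⟨hx, h⟩⟩, ?_⟩
        intro hh
        apply haX
        rw [← hh] at ha
        exact (mem_inter.1 ha).1
      · apply h2
        refine ⟨⟨x, mem_inter.2 ⟨hx, h⟩⟩, ?_⟩
        intro hh
        apply hbX
        rw [← hh] at hb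
        exact (mem_inter.1 hb).1

/-- component of `c` in `T` -/
lemma exists_comp (T : Finset (ℤ × ℤ)) (c : ℤ × ℤ) (hc : c ∈ T) :
    ∃ C ⊆ T, c ∈ C ∧ Conn C ∧ ∀ x ∈ C, ∀ y ∈ T, Adj x y → y ∈ C := by
  classical
  set F : Finset (Finset (ℤ × ℤ)) := T.powerset.filter (fun C => c ∈ C ∧ Conn C) with hF
  have hFne : F.Nonempty := ⟨{c}, by
    rw [hF, mem_filter, mem_powerset]
    exact ⟨singleton_subset_iff.2 hc, mem_singleton_self c, conn_singleton c⟩⟩
  obtain ⟨C, hC, hmax⟩ := exists_max_image F card hFne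
  rw [hF, mem_filter, mem_powerset] at hC
  refine ⟨C, hC.1, hC.2.1, hC.2.2, ?_⟩
  intro x hx y hy hxy
  by_contra hyC
  have h1 : C ∪ {y} ∈ F := by
    rw [hF, mem_filter, mem_powerset]
    refine ⟨union_subset hC.1 (singleton_subset_iff.2 hy), mem_union_left _ hC.2.1, ?_⟩
    exact conn_union hC.2.2 (conn_singleton y) hx (mem_singleton_self y) hxy
  have h2 := hmax _ h1
  have h3 : (C ∪ {y}).card = C.card + 1 := by
    rw [card_union_of_disjoint (by simpa using hyC)]
    simp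
  omega

lemma comp_unique {T C C' : Finset (ℤ × ℤ)} (hCT : C ⊆ T) (hC : Conn C)
    (hC'cl : ∀ x ∈ C', ∀ y ∈ T, Adj x y → y ∈ C') {u : ℤ × ℤ} (hu : u ∈ C) (hu' : u ∈ C') :
    C ⊆ C' := by
  classical
  by_contra h
  have hne : C ∩ C' ≠ C := by
    intro hh
    exact h (inter_eq_left.1 hh)
  obtain ⟨x, hx, y, hy, hyX, hxy⟩ := hC.2 (C ∩ C') inter_subset_left
    ⟨u, mem_inter.2 ⟨hu, hu'⟩⟩ hne
  apply hyX
  exact mem_inter.2 ⟨hy, hC'cl x (mem_inter.1 hx).2 y (hCT hy) hxy⟩

/-- the four directions -/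
def dirs : Finset (ℤ × ℤ) := {(0, 1), (0, -1), (1, 0), (-1, 0)}

lemma card_dirs : dirs.card = 4 := by decide

lemma adj_iff_dirs (a b : ℤ × ℤ) : Adj a b ↔ b - a ∈ dirs := by
  unfold Adj dirs
  simp only [mem_insert, mem_singleton, Prod.ext_iff, Prod.fst_sub, Prod.snd_sub]
  omega

/-- Balanced cut. -/
theorem balanced_cut (S : Finset (ℤ × ℤ)) (hS : Conn S) (h2 : 2 ≤ S.card) :
    ∃ A B : Finset (ℤ × ℤ), Disjoint A B ∧ A ∪ B = S ∧ Conn A ∧ Conn B ∧ A.card ≤ B.card ∧
      S.card ≤ 5 * A.card + 1 ∧ ∃ a ∈ A, ∃ b ∈ B, Adj a b := by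
  classical
  -- candidate sets A
  set F : Finset (Finset (ℤ × ℤ)) := S.powerset.filter
    (fun A => (A = ∅ ∨ Conn A) ∧ Conn (S \ A) ∧ A.card ≤ (S \ A).card) with hF
  have hFne : F.Nonempty := ⟨∅, by
    rw [hF, mem_filter]
    refine ⟨empty_mem_powerset _, Or.inl rfl, ?_, ?_⟩
    · simpa using hS
    · simp⟩
  obtain ⟨A, hA, hmax⟩ := exists_max_image F card hFne
  rw [hF, mem_filter, mem_powerset] at hA
  obtain ⟨hAS, hAc, hBc, hAB⟩ := hA
  set B := S \ A with hB
  have hdisj : Disjoint A B := disjoint_sdiff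
  have hunion : A ∪ B = S := union_sdiff_of_subset hAS
  have hcard : A.card + B.card = S.card := by rw [← card_union_of_disjoint hdisj, hunion]
  have hBS : B ⊆ S := sdiff_subset
  -- an element b of B, adjacent to A if A nonempty
  have hb : ∃ b ∈ B, A = ∅ ∨ ∃ a ∈ A, Adj a b := by
    by_cases hAe : A = ∅
    · obtain ⟨b, hb⟩ := hBc.1
      exact ⟨b, hb, Or.inl hAe⟩
    · obtain ⟨a, ha, b, hb, hbA, hab⟩ := hS.2 A hAS (nonempty_iff_ne_empty.2 hAe) (by
        intro h
        have : B = ∅ := by rw [hB, h]; exact Finset.sdiff_self _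
        have h3 := hBc.1
        rw [this] at h3
        simp at h3)
      exact ⟨b, mem_sdiff.2 ⟨hb, hbA⟩, Or.inr ⟨a, ha, hab⟩⟩
  obtain ⟨b, hbB, hbA⟩ := hb
  -- main estimate
  have main : B.card ≤ 4 * A.card + 1 := by
    by_cases hB1 : B.card ≤ 1
    · omega
    push Not at hB1
    set T := B.erase b with hT
    have hTcard : T.card = B.card - 1 := card_erase_of_mem hbB
    have hTB : T ⊆ B := erase_subset _ _
    -- choose components
    choose! comp hcT hcmem hcconn hccl using fun (c : ℤ × ℤ) (hc : c ∈ T) => exists_comp T c hc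
    -- cover
    have hcover : T ⊆ (dirs.filter (fun d => b + d ∈ T)).biUnion (fun d => comp (b + d)) := by
      intro x hx
      have hxC := hcconn x hx
      obtain ⟨u, hu, z, hz, hzC, huz⟩ := hBc.2 (comp x) ((hcT x hx).trans hTB) hxC.1 (by
        intro h
        have : b ∈ comp x := by rw [h]; exact hbB
        have := hcT x hx this
        rw [hT] at this
        exact (notMem_erase b B) this)
      have hzb : z = b := by
        by_contra hne
        exact hzC (hccl x hx u hu z (mem_erase.2 ⟨hne, hz⟩) huz)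
      subst hzb
      have huT : u ∈ T := hcT x hx hu
      rw [mem_biUnion]
      refine ⟨u - z, ?_, ?_⟩
      · rw [mem_filter]
        refine ⟨(adj_iff_dirs z u).1 huz.symm, ?_⟩
        simpa using huT
      · have h5 : z + (u - z) = u := by abel
        rw [h5]
        exact comp_unique (hcT x hx) hxC (hccl u huT) hu (hcmem u huT) (hcmem x hx)
    have hcard2 : T.card ≤ ∑ d ∈ dirs.filter (fun d => b + d ∈ T), (comp (b + d)).card :=
      (card_le_card hcover).trans card_biUnion_le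
    -- every component has at most |A| elements
    have hsmall : ∀ c ∈ T, (comp c).card ≤ A.card := by
      intro c hc
      have hCT := hcT c hc
      have hCconn := hcconn c hc
      have hCcl := hccl c hc
      set C := comp c with hCdef
      have hCB : C ⊆ B := hCT.trans hTB
      have hbC : b ∉ C := fun h => (notMem_erase b B) (hCT h)
      -- B \ C is connected
      have hBC : Conn (B \ C) := by
        refine ⟨⟨b, mem_sdiff.2 ⟨hbB, hbC⟩⟩, ?_⟩
        intro X hX hXne hXne'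
        by_cases hbX : b ∈ X
        · -- Y = (B \ C) \ X
          have hY : ((B \ C) \ X).Nonempty := by
            rw [sdiff_nonempty]
            intro h
            exact hXne' (Subset.antisymm hX h)
          obtain ⟨y, hy, z, hz, hzY, hyz⟩ := hBc.2 ((B \ C) \ X)
            (sdiff_subset.trans sdiff_subset) hY (by
              intro h
              have : b ∈ (B \ C) \ X := by rw [h]; exact hbB
              exact (mem_sdiff.1 this).2 hbX)
          rw [mem_sdiff, mem_sdiff] at hy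
          have hyT : y ∈ T := mem_erase.2 ⟨fun h => hy.2 (h ▸ hbX), hy.1.1⟩
          have hzC : z ∉ C := fun h => hy.1.2 (hCcl z h y hyT hyz.symm)
          have hzX : z ∈ X := by
            by_contra hzX
            exact hzY (mem_sdiff.2 ⟨mem_sdiff.2 ⟨hz, hzC⟩, hzX⟩)
          exact ⟨z, hzX, y, mem_sdiff.2 hy.1, hy.2, hyz.symm⟩
        · obtain ⟨x, hx, z, hz, hzX, hxz⟩ := hBc.2 X (hX.trans sdiff_subset) hXne (by
              intro h
              exact hbX (h ▸ hbB))
          have hx' := mem_sdiff.1 (hX hx)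
          have hxT : x ∈ T := mem_erase.2 ⟨fun h => hbX (h ▸ hx), hx'.1⟩
          have hzC : z ∉ C := fun h => hx'.2 (hCcl z h x hxT hxz.symm)
          exact ⟨x, hx, z, mem_sdiff.2 ⟨hz, hzC⟩, hzX, hxz⟩
      -- D = S \ C = A ∪ (B \ C)
      have hD : S \ C = A ∪ (B \ C) := by
        rw [← hunion, union_sdiff_distrib]
        congr 1
        rw [Finset.sdiff_eq_self_iff_disjoint]
        exact hdisj.mono_right hCB
      have hDconn : Conn (S \ C) := by
        rw [hD]
        rcases hbA with h | ⟨a, ha, hab⟩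
        · rw [h, empty_union]; exact hBC
        · rcases hAc with h | h
          · rw [h, empty_union]; exact hBC
          · exact conn_union h hBC ha (mem_sdiff.2 ⟨hbB, hbC⟩) hab
      have hCS : C ⊆ S := hCB.trans hBS
      have hDcard : (S \ C).card = S.card - C.card := card_sdiff_of_subset hCS
      have hCle : C.card ≤ T.card := card_le_card hCT
      rcases le_or_gt C.card (S \ C).card with hle | hgt
      · have : C ∈ F := by
          rw [hF, mem_filter, mem_powerset]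
          exact ⟨hCS, Or.inr hCconn, hDconn, hle⟩
        exact hmax C this
      · exfalso
        have hSC : S \ (S \ C) = C := Finset.sdiff_sdiff_eq_self hCS
        have : S \ C ∈ F := by
          rw [hF, mem_filter, mem_powerset, hSC]
          exact ⟨sdiff_subset, Or.inr hDconn, hCconn, hgt.le⟩
        have := hmax _ this
        omega
    have h6 : ∑ d ∈ dirs.filter (fun d => b + d ∈ T), (comp (b + d)).card ≤ 4 * A.card := by
      calc ∑ d ∈ dirs.filter (fun d => b + d ∈ T), (comp (b + d)).card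
          ≤ ∑ d ∈ dirs.filter (fun d => b + d ∈ T), A.card := by
            apply sum_le_sum
            intro d hd
            exact hsmall _ (mem_filter.1 hd).2
        _ = (dirs.filter (fun d => b + d ∈ T)).card * A.card := by rw [sum_const, smul_eq_mul]
        _ ≤ 4 * A.card := by
            apply Nat.mul_le_mul_right
            rw [← card_dirs]
            exact card_filter_le _ _
    omega
  have hAne : A.Nonempty := by
    rw [← card_pos]; omega
  have hAne' : A ≠ ∅ := hAne.ne_empty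
  rcases hAc with h | hAc
  · exact absurd h hAne'
  rcases hbA with h | ⟨a, ha, hab⟩
  · exact absurd h hAne'
  exact ⟨A, B, hdisj, hunion, hAc, hBc, hAB, by omega, a, ha, b, hbB, hab⟩

/-- translation by `v` -/
def sh (v : ℤ × ℤ) (S : Finset (ℤ × ℤ)) : Finset (ℤ × ℤ) := S.map (Equiv.addRight v).toEmbedding

lemma mem_sh {v p : ℤ × ℤ} {S : Finset (ℤ × ℤ)} : p ∈ sh v S ↔ p - v ∈ S := by
  unfold sh
  rw [mem_map]
  constructor
  · rintro ⟨a, ha, rfl⟩
    simpa using ha
  · intro h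
    exact ⟨p - v, h, by simp⟩

lemma card_sh (v : ℤ × ℤ) (S : Finset (ℤ × ℤ)) : (sh v S).card = S.card := card_map _

lemma sh_sh (v w : ℤ × ℤ) (S : Finset (ℤ × ℤ)) : sh v (sh w S) = sh (w + v) S := by
  ext p
  rw [mem_sh, mem_sh, mem_sh]
  rw [show p - v - w = p - (w + v) by abel]

lemma sh_zero (S : Finset (ℤ × ℤ)) : sh 0 S = S := by
  ext p
  rw [mem_sh, sub_zero]

lemma sh_union (v : ℤ × ℤ) (S T : Finset (ℤ × ℤ)) : sh v (S ∪ T) = sh v S ∪ sh v T := by
  ext p
  simp only [mem_union, mem_sh]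

lemma adj_sub {a b v : ℤ × ℤ} : Adj (a - v) (b - v) ↔ Adj a b := by
  rw [adj_iff_dirs, adj_iff_dirs, show b - v - (a - v) = b - a by abel]

lemma adj_add {a b v : ℤ × ℤ} : Adj (a + v) (b + v) ↔ Adj a b := by
  rw [adj_iff_dirs, adj_iff_dirs, show b + v - (a + v) = b - a by abel]

lemma conn_sh {v : ℤ × ℤ} {S : Finset (ℤ × ℤ)} (h : Conn S) : Conn (sh v S) := by
  obtain ⟨⟨s, hs⟩, hS⟩ := h
  refine ⟨⟨s + v, by rw [mem_sh]; simpa using hs⟩, ?_⟩
  intro X hX hne hX'
  obtain ⟨x, hx⟩ := hne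
  obtain ⟨a, ha, b, hb, hbX, hab⟩ := hS (sh (-v) X) (by
    intro p hp
    rw [mem_sh] at hp
    have := hX hp
    rw [mem_sh] at this
    simpa using this) ⟨x - v, by rw [mem_sh]; simpa using hx⟩ (by
    intro h
    apply hX'
    rw [← h, sh_sh, neg_add_cancel, sh_zero])
  rw [mem_sh] at ha hbX
  refine ⟨a + v, by simpa using ha, b + v, by rw [mem_sh]; simpa using hb, ?_, adj_add.2 hab⟩
  simpa using hbX

lemma conn_sh_iff {v : ℤ × ℤ} {S : Finset (ℤ × ℤ)} : Conn (sh v S) ↔ Conn S := by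
  refine ⟨fun h => ?_, conn_sh⟩
  have := conn_sh (v := -v) h
  rwa [sh_sh, add_neg_cancel, sh_zero] at this

/-- a connected set has small extent in each coordinate -/
lemma extent {S : Finset (ℤ × ℤ)} (hS : Conn S) (f : ℤ × ℤ → ℤ)
    (hf : ∀ a b, Adj a b → f b ≤ f a + 1) {u p : ℤ × ℤ} (hu : u ∈ S) (hp : p ∈ S) :
    f p - f u + 1 ≤ S.card := by
  classical
  rcases lt_or_ge (f p) (f u) with hlt | hge
  · omega
  have hsub : Icc (f u) (f p) ⊆ S.image f := by
    intro j hj
    rw [mem_Icc] at hj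
    by_contra hcon
    rw [mem_image] at hcon
    push Not at hcon
    have hju : f u < j := lt_of_le_of_ne hj.1 (hcon u hu)
    obtain ⟨x, hx, y, hy, hyX, hxy⟩ := hS.2 (S.filter (fun q => f q < j)) (filter_subset _ _)
      ⟨u, mem_filter.2 ⟨hu, hju⟩⟩ (by
        intro h
        have : p ∈ S.filter (fun q => f q < j) := by rw [h]; exact hp
        have := (mem_filter.1 this).2
        omega)
    rw [mem_filter] at hx
    have h1 := hf x y hxy
    have h2 : ¬ f y < j := fun h => hyX (mem_filter.2 ⟨hy, h⟩)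
    have h3 := hcon y hy
    omega
  have h1 := card_le_card hsub
  have h2 := h1.trans card_image_le
  rw [Int.card_Icc] at h2
  have : ((f p + 1 - f u).toNat : ℤ) ≤ S.card := by exact_mod_cast h2
  have h3 := Int.self_le_toNat (f p + 1 - f u)
  omega

lemma box_bound {S : Finset (ℤ × ℤ)} (hS : Conn S) (h0 : (0 : ℤ × ℤ) ∈ S) {p : ℤ × ℤ}
    (hp : p ∈ S) : (-(S.card : ℤ) < p.1 ∧ p.1 < S.card) ∧ (-(S.card : ℤ) < p.2 ∧ p.2 < S.card) := by
  have h1 := extent hS Prod.fst (fun a b h => by unfold Adj at h; omega) h0 hp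
  have h2 := extent hS Prod.fst (fun a b h => by unfold Adj at h; omega) hp h0
  have h3 := extent hS Prod.snd (fun a b h => by unfold Adj at h; omega) h0 hp
  have h4 := extent hS Prod.snd (fun a b h => by unfold Adj at h; omega) hp h0
  simp only [Prod.fst_zero, Prod.snd_zero] at h1 h2 h3 h4
  omega

open Classical in
/-- the connected `n`-cell sets containing the origin -/
noncomputable def R (n : ℕ) : Finset (Finset (ℤ × ℤ)) :=
  ((Icc (-(n : ℤ)) n ×ˢ Icc (-(n : ℤ)) n).powerset).filter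
    (fun S => S.card = n ∧ (0 : ℤ × ℤ) ∈ S ∧ Conn S)

lemma mem_R {n : ℕ} {S : Finset (ℤ × ℤ)} :
    S ∈ R n ↔ S.card = n ∧ (0 : ℤ × ℤ) ∈ S ∧ Conn S := by
  classical
  unfold R
  rw [mem_filter, mem_powerset]
  constructor
  · exact fun h => h.2
  · intro h
    refine ⟨?_, h⟩
    intro p hp
    have := box_bound h.2.2 h.2.1 hp
    rw [mem_product, mem_Icc, mem_Icc]
    rw [h.1] at this
    omega

/-- number of connected `n`-cell sets containing the origin -/
noncomputable def rr (n : ℕ) : ℕ := (R n).card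

theorem rr_le (N : ℕ) (hN : 2 ≤ N) :
    rr N ≤ ∑ m ∈ (range (N + 1)).filter (fun m => N ≤ 5 * m + 1 ∧ 2 * m ≤ N),
      4 * N * (rr m * rr (N - m)) := by
  classical
  have hsub : R N ⊆ ((range (N + 1)).filter (fun m => N ≤ 5 * m + 1 ∧ 2 * m ≤ N)).biUnion
      (fun m => ((R m ×ˢ R (N - m)) ×ˢ dirs).biUnion
        (fun q => (q.1.1 ∪ sh q.2 q.1.2).image (fun c => sh (-c) (q.1.1 ∪ sh q.2 q.1.2)))) := by
    intro S hS
    rw [mem_R] at hS
    obtain ⟨hcard, h0, hconn⟩ := hS
    obtain ⟨A, B, hdisj, hunion, hA, hB, hAB, hbal, a, ha, b, hb, hab⟩ :=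
      balanced_cut S hconn (by omega)
    have hc : A.card + B.card = S.card := by rw [← card_union_of_disjoint hdisj, hunion]
    rw [mem_biUnion]
    refine ⟨A.card, ?_, ?_⟩
    · rw [mem_filter, mem_range]
      omega
    · rw [mem_biUnion]
      refine ⟨((sh (-a) A, sh (-b) B), b - a), ?_, ?_⟩
      · rw [mem_product, mem_product]
        refine ⟨⟨?_, ?_⟩, (adj_iff_dirs a b).1 hab⟩
        · rw [mem_R]
          refine ⟨card_sh _ _, ?_, conn_sh hA⟩
          rw [mem_sh]
          simpa using ha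
        · rw [mem_R]
          refine ⟨?_, ?_, conn_sh hB⟩
          · rw [card_sh]; omega
          · rw [mem_sh]
            simpa using hb
      · have hU : sh (-a) A ∪ sh (b - a) (sh (-b) B) = sh (-a) S := by
          rw [sh_sh, show -b + (b - a) = -a by abel, ← sh_union, hunion]
        simp only [hU]
        rw [mem_image]
        refine ⟨-a, ?_, ?_⟩
        · rw [mem_sh, sub_self]
          exact h0
        · rw [neg_neg, sh_sh, neg_add_cancel, sh_zero]
  unfold rr
  refine (card_le_card hsub).trans (card_biUnion_le.trans (sum_le_sum ?_))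
  intro m hm
  rw [mem_filter, mem_range] at hm
  refine card_biUnion_le.trans ?_
  calc ∑ q ∈ (R m ×ˢ R (N - m)) ×ˢ dirs,
        ((q.1.1 ∪ sh q.2 q.1.2).image (fun c => sh (-c) (q.1.1 ∪ sh q.2 q.1.2))).card
      ≤ ∑ q ∈ (R m ×ˢ R (N - m)) ×ˢ dirs, N := by
        apply sum_le_sum
        intro q hq
        rw [mem_product, mem_product, mem_R, mem_R] at hq
        refine card_image_le.trans ((card_union_le _ _).trans ?_)
        rw [card_sh, hq.1.1.1, hq.1.2.1]
        omega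
    _ = 4 * N * ((R m).card * (R (N - m)).card) := by
        rw [sum_const, card_product, card_product, card_dirs, smul_eq_mul]
        ring

/-- lexicographic order -/
def lexle (a b : ℤ × ℤ) : Prop := a.2 < b.2 ∨ (a.2 = b.2 ∧ a.1 ≤ b.1)

lemma exists_lexmin (S : Finset (ℤ × ℤ)) (hS : S.Nonempty) : ∃ u ∈ S, ∀ p ∈ S, lexle u p := by
  obtain ⟨u, hu, h⟩ := exists_min_image S (fun p => toLex (p.2, p.1)) hS
  refine ⟨u, hu, fun p hp => ?_⟩
  have := h p hp
  rw [Prod.Lex.le_iff] at this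
  exact this

lemma exists_lexmax (S : Finset (ℤ × ℤ)) (hS : S.Nonempty) : ∃ u ∈ S, ∀ p ∈ S, lexle p u := by
  obtain ⟨u, hu, h⟩ := exists_max_image S (fun p => toLex (p.2, p.1)) hS
  refine ⟨u, hu, fun p hp => ?_⟩
  have := h p hp
  rw [Prod.Lex.le_iff] at this
  exact this

open Classical in
/-- canonical representatives -/
noncomputable def Can (n : ℕ) : Finset (Finset (ℤ × ℤ)) :=
  (R n).filter (fun S => ∀ p ∈ S, lexle 0 p)

lemma mem_Can {n : ℕ} {S : Finset (ℤ × ℤ)} :
    S ∈ Can n ↔ S.card = n ∧ (0 : ℤ × ℤ) ∈ S ∧ Conn S ∧ ∀ p ∈ S, lexle 0 p := by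
  classical
  unfold Can
  rw [mem_filter, mem_R]
  tauto

lemma canon {S : Finset (ℤ × ℤ)} (hS : Conn S) :
    ∃ u ∈ S, sh (-u) S ∈ Can S.card := by
  obtain ⟨u, hu, hmin⟩ := exists_lexmin S hS.1
  refine ⟨u, hu, ?_⟩
  rw [mem_Can]
  refine ⟨card_sh _ _, ?_, conn_sh hS, ?_⟩
  · rw [mem_sh]; simpa using hu
  · intro p hp
    rw [mem_sh] at hp
    have := hmin _ hp
    unfold lexle at *
    simp only [Prod.fst_sub, Prod.snd_sub, Prod.fst_neg, Prod.snd_neg, Prod.fst_zero,
      Prod.snd_zero] at *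
    omega

theorem t_eq (n : ℕ) : t n = (Can n).card := by
  classical
  have hf : ∀ S : {S // S ∈ Can n}, S.1.card = n ∧
      (grid.induce ((S.1 : Finset (ℤ × ℤ)) : Set (ℤ × ℤ))).Connected := by
    rintro ⟨S, hS⟩
    rw [mem_Can] at hS
    exact ⟨hS.1, (conn_iff S).1 hS.2.2.1⟩
  have hbij : Function.Bijective (fun S : {S // S ∈ Can n} =>
      (Quotient.mk (transSetoid n) ⟨S.1, hf S⟩ : Quotient (transSetoid n))) := by
    constructor
    · rintro ⟨S, hS⟩ ⟨T, hT⟩ h
      have h' := Quotient.exact h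
      obtain ⟨v, hv⟩ := h'
      change T = sh v S at hv
      rw [mem_Can] at hS hT
      have h1 : v ∈ T := by
        rw [hv, mem_sh, sub_self]; exact hS.2.1
      have h2 : (0 : ℤ × ℤ) - v ∈ S := by
        rw [← mem_sh, ← hv]; exact hT.2.1
      have h3 := hT.2.2.2 v h1
      have h4 := hS.2.2.2 _ h2
      unfold lexle at h3 h4
      simp only [Prod.fst_sub, Prod.snd_sub, Prod.fst_zero, Prod.snd_zero] at h3 h4
      have h5 : v = 0 := by
        ext
        · simp only [Prod.fst_zero]; omega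
        · simp only [Prod.snd_zero]; omega
      rw [h5, sh_zero] at hv
      exact Subtype.ext hv.symm
    · intro q
      induction q using Quotient.inductionOn with
      | h S =>
        obtain ⟨S, hcard, hconn⟩ := S
        obtain ⟨u, hu, hcan⟩ := canon ((conn_iff S).2 hconn)
        rw [hcard] at hcan
        refine ⟨⟨sh (-u) S, hcan⟩, ?_⟩
        apply Quotient.sound
        refine ⟨u, ?_⟩
        change S = sh u (sh (-u) S)
        rw [sh_sh, neg_add_cancel, sh_zero]
  unfold t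
  rw [← Nat.card_eq_of_bijective _ hbij]
  simp

lemma t_le_rr (n : ℕ) : t n ≤ rr n := by
  classical
  rw [t_eq]
  exact card_le_card (filter_subset _ _)

lemma rr_le_t (n : ℕ) : rr n ≤ n * t n := by
  classical
  rw [t_eq]
  have hsub : R n ⊆ (Can n).biUnion (fun S => S.image (fun c => sh (-c) S)) := by
    intro S hS
    rw [mem_R] at hS
    obtain ⟨u, hu, hcan⟩ := canon hS.2.2
    rw [hS.1] at hcan
    rw [mem_biUnion]
    refine ⟨_, hcan, ?_⟩
    rw [mem_image]
    refine ⟨-u, ?_, ?_⟩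
    · rw [mem_sh]; simpa using hS.2.1
    · rw [neg_neg, sh_sh, neg_add_cancel, sh_zero]
  unfold rr
  refine (card_le_card hsub).trans (card_biUnion_le.trans ?_)
  calc ∑ S ∈ Can n, (S.image (fun c => sh (-c) S)).card ≤ ∑ S ∈ Can n, n := by
        apply sum_le_sum
        intro S hS
        refine card_image_le.trans ?_
        rw [(mem_Can.1 hS).1]
    _ = n * (Can n).card := by rw [sum_const, smul_eq_mul, mul_comm]

lemma t_pos {n : ℕ} (hn : 1 ≤ n) : 1 ≤ t n := by
  classical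
  rw [t_eq, Nat.succ_le_iff, card_pos]
  -- a horizontal bar
  refine ⟨(range n).image (fun i : ℕ => ((i : ℤ), (0 : ℤ))), ?_⟩
  rw [mem_Can]
  refine ⟨?_, ?_, ?_, ?_⟩
  · rw [card_image_of_injective, card_range]
    intro a b h
    simpa using h
  · rw [mem_image]
    exact ⟨0, mem_range.2 hn, by simp⟩
  · have key : ∀ m : ℕ, Conn ((range (m + 1)).image (fun i : ℕ => ((i : ℤ), (0 : ℤ)))) := by
      intro m
      induction m with
      | zero => simpa using conn_singleton (0, 0)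
      | succ m ih =>
        have : (range (m + 1 + 1)).image (fun i : ℕ => ((i : ℤ), (0 : ℤ))) =
            (range (m + 1)).image (fun i : ℕ => ((i : ℤ), (0 : ℤ))) ∪ {(((m + 1 : ℕ) : ℤ), 0)} := by
          rw [range_add_one (n := m + 1), image_insert, union_comm]
          rfl
        rw [this]
        refine conn_union ih (conn_singleton _) (a := ((m : ℤ), 0)) ?_ (mem_singleton_self _) ?_
        · rw [mem_image]
          exact ⟨m, mem_range.2 (by omega), rfl⟩
        · unfold Adj; push_cast; simp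
    obtain ⟨m, rfl⟩ : ∃ m, n = m + 1 := ⟨n - 1, by omega⟩
    exact key m
  · intro p hp
    rw [mem_image] at hp
    obtain ⟨i, _, rfl⟩ := hp
    unfold lexle
    simp

theorem t_mul_le (m n : ℕ) : t m * t n ≤ t (m + n) := by
  classical
  rw [t_eq, t_eq, t_eq, ← card_product]
  choose! mx hmx hmax using exists_lexmax
  have hw : ∀ (A B : Finset (ℤ × ℤ)), A ∈ Can m → B ∈ Can n →
      ∀ q ∈ sh (mx A + (1, 0)) B, ¬ lexle q (mx A) ∧ lexle 0 q := by
    intro A B hA hB q hq
    rw [mem_Can] at hA hB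
    rw [mem_sh] at hq
    have h1 := hB.2.2.2 _ hq
    have h2 := hA.2.2.2 _ (hmx A ⟨0, hA.2.1⟩)
    unfold lexle at *
    simp only [Prod.fst_sub, Prod.snd_sub, Prod.fst_add, Prod.snd_add, Prod.fst_zero,
      Prod.snd_zero] at *
    omega
  have hfil : ∀ (A B : Finset (ℤ × ℤ)), A ∈ Can m → B ∈ Can n →
      (A ∪ sh (mx A + (1, 0)) B).filter (fun p => lexle p (mx A)) = A := by
    intro A B hA hB
    ext p
    rw [mem_filter, mem_union]
    constructor
    · rintro ⟨h | h, hp⟩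
      · exact h
      · exact absurd hp (hw A B hA hB p h).1
    · intro h
      exact ⟨Or.inl h, hmax A ⟨p, h⟩ p h⟩
  apply card_le_card_of_injOn (fun q => q.1 ∪ sh (mx q.1 + (1, 0)) q.2)
  · rintro ⟨A, B⟩ hAB
    rw [mem_coe, mem_product] at hAB
    obtain ⟨hA, hB⟩ := hAB
    have hA' := mem_Can.1 hA
    have hB' := mem_Can.1 hB
    simp only at hA hB hA' hB'
    rw [mem_coe, mem_Can]
    refine ⟨?_, ?_, ?_, ?_⟩
    · rw [card_union_of_disjoint, card_sh, hA'.1, hB'.1]
      rw [disjoint_left]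
      intro p hp hp'
      exact (hw A B hA hB p hp').1 (hmax A ⟨p, hp⟩ p hp)
    · exact mem_union_left _ hA'.2.1
    · refine conn_union hA'.2.2.1 (conn_sh hB'.2.2.1) (a := mx A) (b := mx A + (1, 0))
        (hmx A ⟨0, hA'.2.1⟩) ?_ ?_
      · rw [mem_sh, sub_self]; exact hB'.2.1
      · rw [adj_iff_dirs]; simp [dirs]
    · intro p hp
      rcases mem_union.1 hp with h | h
      · exact hA'.2.2.2 p h
      · exact (hw A B hA hB p h).2
  · rintro ⟨A, B⟩ hAB ⟨A', B'⟩ hAB' h
    rw [mem_coe, mem_product] at hAB hAB'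
    obtain ⟨hA, hB⟩ := hAB
    obtain ⟨hA', hB'⟩ := hAB'
    simp only at h hA hB hA' hB'
    have e1 := hfil A B hA hB
    have e2 := hfil A' B' hA' hB'
    have hAA : A = A' := by
      by_cases hl : lexle (mx A) (mx A')
      · apply eq_of_subset_of_card_le
        · intro p hp
          rw [← e2, ← h, mem_filter]
          refine ⟨mem_union_left _ hp, ?_⟩
          have := hmax A ⟨p, hp⟩ p hp
          unfold lexle at *
          omega
        · rw [(mem_Can.1 hA).1, (mem_Can.1 hA').1]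
      · symm
        apply eq_of_subset_of_card_le
        · intro p hp
          rw [← e1, h, mem_filter]
          refine ⟨mem_union_left _ hp, ?_⟩
          have := hmax A' ⟨p, hp⟩ p hp
          unfold lexle at *
          omega
        · rw [(mem_Can.1 hA).1, (mem_Can.1 hA').1]
    subst hAA
    have hBB : sh (mx A + (1, 0)) B = sh (mx A + (1, 0)) B' := by
      have d1 : sh (mx A + (1, 0)) B = (A ∪ sh (mx A + (1, 0)) B).filter
          (fun p => ¬ lexle p (mx A)) := by
        ext p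
        rw [mem_filter, mem_union]
        constructor
        · intro hp; exact ⟨Or.inr hp, (hw A B hA hB p hp).1⟩
        · rintro ⟨hp | hp, hp'⟩
          · exact absurd (hmax A ⟨p, hp⟩ p hp) hp'
          · exact hp
      have d2 : sh (mx A + (1, 0)) B' = (A ∪ sh (mx A + (1, 0)) B').filter
          (fun p => ¬ lexle p (mx A)) := by
        ext p
        rw [mem_filter, mem_union]
        constructor
        · intro hp; exact ⟨Or.inr hp, (hw A B' hA' hB' p hp).1⟩
        · rintro ⟨hp | hp, hp'⟩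
          · exact absurd (hmax A ⟨p, hp⟩ p hp) hp'
          · exact hp
      rw [d1, d2, h]
    have : B = B' := by
      have h5 : sh (-(mx A + (1, 0))) (sh (mx A + (1, 0)) B) =
          sh (-(mx A + (1, 0))) (sh (mx A + (1, 0)) B') := by rw [hBB]
      rw [sh_sh, sh_sh, add_neg_cancel, sh_zero, sh_zero] at h5
      exact h5
    rw [this]

section primrec

variable {α : Type*} [Primcodable α]

lemma primrec_pow : Primrec₂ ((· ^ ·) : ℕ → ℕ → ℕ) := Primrec₂.unpaired'.1 Nat.Primrec.pow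

lemma bex {f : α → ℕ} {R : α → ℕ → Prop} (hf : Primrec f) (hR : PrimrecRel R) :
    PrimrecPred (fun a => ∃ k < f a, R a k) :=
  ((hR.swap).exists_mem_list.comp (Primrec.list_range.comp hf) .id).of_eq (by
    intro a
    simp [Function.swap])

lemma ball {f : α → ℕ} {R : α → ℕ → Prop} (hf : Primrec f) (hR : PrimrecRel R) :
    PrimrecPred (fun a => ∀ k < f a, R a k) :=
  ((hR.swap).forall_mem_list.comp (Primrec.list_range.comp hf) .id).of_eq (by
    intro a
    simp [Function.swap])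

lemma bcount {f : α → ℕ} {R : α → ℕ → Prop} [DecidableRel R] (hf : Primrec f)
    (hR : PrimrecRel R) : Primrec (fun a => ((range (f a)).filter (R a)).card) := by
  have h1 : PrimrecRel (fun (k : ℕ) (a : α) => R a k) := hR.swap
  have h2 := Primrec.list_length.comp
    ((h1.listFilter).comp (Primrec.list_range.comp hf) (Primrec.id (α := α)))
  refine h2.of_eq ?_
  intro a
  rfl

/-- bit `k` of `s` -/
def bit (s k : ℕ) : Prop := s / 2 ^ k % 2 = 1

instance : DecidableRel bit := fun _ _ => by unfold bit; infer_instance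

lemma bit_primrec : PrimrecRel bit :=
  Primrec.eq.comp (Primrec.nat_mod.comp (Primrec.nat_div.comp .fst
    (primrec_pow.comp (.const 2) .snd)) (.const 2)) (.const 1)

/-- adjacency of cell indices in a box of width `W` -/
def adjk (W x y : ℕ) : Prop :=
  (x % W = y % W ∧ (x / W = y / W + 1 ∨ y / W = x / W + 1)) ∨
    (x / W = y / W ∧ (x % W = y % W + 1 ∨ y % W = x % W + 1))

lemma adjk_primrec {f g h : α → ℕ} (hf : Primrec f) (hg : Primrec g) (hh : Primrec h) :
    PrimrecPred (fun a => adjk (f a) (g a) (h a)) := by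
  have a1 : Primrec (fun a => g a % f a) := Primrec.nat_mod.comp hg hf
  have a2 : Primrec (fun a => h a % f a) := Primrec.nat_mod.comp hh hf
  have a3 : Primrec (fun a => g a / f a) := Primrec.nat_div.comp hg hf
  have a4 : Primrec (fun a => h a / f a) := Primrec.nat_div.comp hh hf
  exact ((Primrec.eq.comp a1 a2).and
    ((Primrec.eq.comp a3 (Primrec.succ.comp a4)).or (Primrec.eq.comp a4 (Primrec.succ.comp a3)))).or
    ((Primrec.eq.comp a3 a4).and
    ((Primrec.eq.comp a1 (Primrec.succ.comp a2)).or (Primrec.eq.comp a2 (Primrec.succ.comp a1))))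

/-- number of cells of the box -/
def bx (n : ℕ) : ℕ := (2 * n + 1) ^ 2

lemma W_primrec : Primrec (fun n : ℕ => 2 * n + 1) :=
  Primrec.succ.comp (Primrec.nat_mul.comp (.const 2) .id)

lemma bx_primrec : Primrec bx := primrec_pow.comp W_primrec (.const 2)

/-- connectivity of the set of cells coded by `s` -/
def connk (n s : ℕ) : Prop :=
  ∀ a < 2 ^ bx n, ((∃ k < bx n, bit s k ∧ bit a k) ∧ (∃ k < bx n, bit s k ∧ ¬ bit a k)) →
    ∃ x < bx n, ∃ y < bx n, (bit s x ∧ bit a x) ∧ (bit s y ∧ ¬ bit a y) ∧ adjk (2 * n + 1) x y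

lemma connk_primrec : PrimrecRel connk := by
  have hn : Primrec (fun p : (ℕ × ℕ) × ℕ => bx p.1.1) :=
    bx_primrec.comp (Primrec.fst.comp Primrec.fst)
  have e1 : PrimrecPred (fun p : (ℕ × ℕ) × ℕ => ∃ k < bx p.1.1, bit p.1.2 k ∧ bit p.2 k) := by
    refine bex hn ?_
    refine PrimrecPred.and ?_ ?_
    · exact bit_primrec.comp (Primrec.snd.comp (Primrec.fst.comp Primrec.fst)) Primrec.snd
    · exact bit_primrec.comp (Primrec.snd.comp Primrec.fst) Primrec.snd
  have e2 : PrimrecPred (fun p : (ℕ × ℕ) × ℕ => ∃ k < bx p.1.1, bit p.1.2 k ∧ ¬ bit p.2 k) := by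
    refine bex hn ?_
    refine PrimrecPred.and ?_ (PrimrecPred.not ?_)
    · exact bit_primrec.comp (Primrec.snd.comp (Primrec.fst.comp Primrec.fst)) Primrec.snd
    · exact bit_primrec.comp (Primrec.snd.comp Primrec.fst) Primrec.snd
  have e3 : PrimrecPred (fun p : (ℕ × ℕ) × ℕ => ∃ x < bx p.1.1, ∃ y < bx p.1.1,
      (bit p.1.2 x ∧ bit p.2 x) ∧ (bit p.1.2 y ∧ ¬ bit p.2 y) ∧ adjk (2 * p.1.1 + 1) x y) := by
    refine bex hn ?_
    refine bex (α := ((ℕ × ℕ) × ℕ) × ℕ) (f := fun q => bx q.1.1.1)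
      (R := fun q y => (bit q.1.1.2 q.2 ∧ bit q.1.2 q.2) ∧ (bit q.1.1.2 y ∧ ¬ bit q.1.2 y) ∧
        adjk (2 * q.1.1.1 + 1) q.2 y) (hn.comp Primrec.fst) ?_
    -- variables: r : (((ℕ × ℕ) × ℕ) × ℕ) × ℕ
    have v1 : Primrec (fun r : (((ℕ × ℕ) × ℕ) × ℕ) × ℕ => r.1.1.1.1) :=
      Primrec.fst.comp (Primrec.fst.comp (Primrec.fst.comp Primrec.fst))
    have v2 : Primrec (fun r : (((ℕ × ℕ) × ℕ) × ℕ) × ℕ => r.1.1.1.2) :=
      Primrec.snd.comp (Primrec.fst.comp (Primrec.fst.comp Primrec.fst))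
    have v3 : Primrec (fun r : (((ℕ × ℕ) × ℕ) × ℕ) × ℕ => r.1.1.2) :=
      Primrec.snd.comp (Primrec.fst.comp Primrec.fst)
    have v4 : Primrec (fun r : (((ℕ × ℕ) × ℕ) × ℕ) × ℕ => r.1.2) :=
      Primrec.snd.comp Primrec.fst
    have v5 : Primrec (fun r : (((ℕ × ℕ) × ℕ) × ℕ) × ℕ => r.2) := Primrec.snd
    exact ((bit_primrec.comp v2 v4).and (bit_primrec.comp v3 v4)).and
      (((bit_primrec.comp v2 v5).and (bit_primrec.comp v3 v5).not).and
        (adjk_primrec (W_primrec.comp v1) v4 v5))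
  have e4 : PrimrecRel (fun (p : ℕ × ℕ) (a : ℕ) =>
      ((∃ k < bx p.1, bit p.2 k ∧ bit a k) ∧ (∃ k < bx p.1, bit p.2 k ∧ ¬ bit a k)) →
      ∃ x < bx p.1, ∃ y < bx p.1, (bit p.2 x ∧ bit a x) ∧ (bit p.2 y ∧ ¬ bit a y) ∧
        adjk (2 * p.1 + 1) x y) := by
    refine ((e1.and e2).not.or e3).of_eq ?_
    rintro ⟨⟨n, s⟩, a⟩
    exact imp_iff_not_or.symm
  exact ball (primrec_pow.comp (.const 2) (bx_primrec.comp Primrec.fst)) e4

/-- `s` codes a canonical polyomino -/
def good (n s : ℕ) : Prop :=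
  ((range (bx n)).filter (bit s)).card = n ∧ bit s (n * (2 * n + 1) + n) ∧
    (∀ k < bx n, bit s k → (n < k / (2 * n + 1) ∨ (n = k / (2 * n + 1) ∧ n ≤ k % (2 * n + 1)))) ∧
    connk n s

lemma good_primrec : PrimrecRel good := by
  have h1 : Primrec (fun p : ℕ × ℕ => bx p.1) := bx_primrec.comp Primrec.fst
  have hW : Primrec (fun p : ℕ × ℕ => 2 * p.1 + 1) := W_primrec.comp Primrec.fst
  refine PrimrecPred.and ?_ (PrimrecPred.and ?_ (PrimrecPred.and ?_ connk_primrec))
  · refine Primrec.eq.comp ?_ Primrec.fst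
    refine bcount (α := ℕ × ℕ) (f := fun p => bx p.1) (R := fun p k => bit p.2 k) h1 ?_
    exact bit_primrec.comp (Primrec.snd.comp Primrec.fst) Primrec.snd
  · exact bit_primrec.comp Primrec.snd (Primrec.nat_add.comp (Primrec.nat_mul.comp Primrec.fst hW)
      Primrec.fst)
  · refine ball (α := ℕ × ℕ) (f := fun p => bx p.1) (R := fun p k => bit p.2 k →
      (p.1 < k / (2 * p.1 + 1) ∨ (p.1 = k / (2 * p.1 + 1) ∧ p.1 ≤ k % (2 * p.1 + 1)))) h1 ?_
    have v1 : Primrec (fun r : (ℕ × ℕ) × ℕ => r.1.1) := Primrec.fst.comp Primrec.fst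
    have v2 : Primrec (fun r : (ℕ × ℕ) × ℕ => r.1.2) := Primrec.snd.comp Primrec.fst
    have v3 : Primrec (fun r : (ℕ × ℕ) × ℕ => r.2) := Primrec.snd
    have hW' : Primrec (fun r : (ℕ × ℕ) × ℕ => 2 * r.1.1 + 1) := W_primrec.comp v1
    have d1 : Primrec (fun r : (ℕ × ℕ) × ℕ => r.2 / (2 * r.1.1 + 1)) := Primrec.nat_div.comp v3 hW'
    have d2 : Primrec (fun r : (ℕ × ℕ) × ℕ => r.2 % (2 * r.1.1 + 1)) := Primrec.nat_mod.comp v3 hW'
    refine ((bit_primrec.comp v2 v3).not.or ((Primrec.nat_lt.comp v1 d1).or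
      ((Primrec.eq.comp v1 d1).and (Primrec.nat_le.comp v1 d2)))).of_eq ?_
    rintro ⟨⟨n, s⟩, a⟩
    exact imp_iff_not_or.symm

open Classical in
/-- computable count -/
noncomputable def tc (n : ℕ) : ℕ := ((range (2 ^ bx n)).filter (good n)).card

open Classical in
lemma tc_primrec : Primrec tc :=
  bcount (α := ℕ) (f := fun n => 2 ^ bx n) (R := good)
    (primrec_pow.comp (.const 2) bx_primrec) good_primrec

end primrec

/-- the cell with index `k` in the box `[-n, n]²` -/
def cell (n k : ℕ) : ℤ × ℤ :=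
  (((k % (2 * n + 1) : ℕ) : ℤ) - n, ((k / (2 * n + 1) : ℕ) : ℤ) - n)

lemma cell_inj {n k k' : ℕ} (h : cell n k = cell n k') : k = k' := by
  unfold cell at h
  rw [Prod.mk.injEq] at h
  have h1 : k % (2 * n + 1) = k' % (2 * n + 1) := by omega
  have h2 : k / (2 * n + 1) = k' / (2 * n + 1) := by omega
  rw [← Nat.div_add_mod k (2 * n + 1), ← Nat.div_add_mod k' (2 * n + 1), h1, h2]

/-- the box -/
noncomputable def box (n : ℕ) : Finset (ℤ × ℤ) := Icc (-(n : ℤ)) n ×ˢ Icc (-(n : ℤ)) n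

lemma card_box (n : ℕ) : (box n).card = bx n := by
  unfold box bx
  rw [card_product, Int.card_Icc, sq]
  congr 1 <;> omega

lemma cell_mem_box {n k : ℕ} (hk : k < bx n) : cell n k ∈ box n := by
  unfold box cell
  rw [mem_product, mem_Icc, mem_Icc]
  have h1 : k % (2 * n + 1) < 2 * n + 1 := Nat.mod_lt _ (by omega)
  have h2 : k / (2 * n + 1) < 2 * n + 1 := by
    rw [Nat.div_lt_iff_lt_mul (by omega)]
    unfold bx at hk
    rwa [← sq]
  simp only
  generalize k % (2 * n + 1) = r at *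
  generalize k / (2 * n + 1) = q at *
  omega

lemma image_cell (n : ℕ) : (range (bx n)).image (cell n) = box n := by
  apply eq_of_subset_of_card_le
  · intro p hp
    rw [mem_image] at hp
    obtain ⟨k, hk, rfl⟩ := hp
    exact cell_mem_box (mem_range.1 hk)
  · rw [card_image_of_injective _ (fun a b h => cell_inj h), card_range, card_box]

lemma exists_cell {n : ℕ} {p : ℤ × ℤ} (hp : p ∈ box n) : ∃ k < bx n, cell n k = p := by
  rw [← image_cell, mem_image] at hp
  obtain ⟨k, hk, h⟩ := hp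
  exact ⟨k, mem_range.1 hk, h⟩

/-- the set of cells coded by `s` -/
def dec (n s : ℕ) : Finset (ℤ × ℤ) := ((range (bx n)).filter (bit s)).image (cell n)

lemma mem_dec {n s k : ℕ} (hk : k < bx n) : cell n k ∈ dec n s ↔ bit s k := by
  unfold dec
  rw [mem_image]
  constructor
  · rintro ⟨k', hk', h⟩
    rw [mem_filter] at hk'
    rw [← cell_inj h]
    exact hk'.2
  · intro h
    exact ⟨k, mem_filter.2 ⟨mem_range.2 hk, h⟩, rfl⟩

lemma dec_sub (n s : ℕ) : dec n s ⊆ box n := by
  intro p hp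
  unfold dec at hp
  rw [mem_image] at hp
  obtain ⟨k, hk, rfl⟩ := hp
  exact cell_mem_box (mem_range.1 (mem_filter.1 hk).1)

lemma card_dec (n s : ℕ) : (dec n s).card = ((range (bx n)).filter (bit s)).card :=
  card_image_of_injective _ (fun _ _ h => cell_inj h)

lemma bit_iff (s k : ℕ) : bit s k ↔ s.testBit k = true := by
  unfold bit
  rw [Nat.testBit_eq_decide_div_mod_eq, decide_eq_true_iff]

lemma dec_inj {n s s' : ℕ} (hs : s < 2 ^ bx n) (hs' : s' < 2 ^ bx n) (h : dec n s = dec n s') :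
    s = s' := by
  apply Nat.eq_of_testBit_eq
  intro k
  by_cases hk : k < bx n
  · have h1 : bit s k ↔ bit s' k := by rw [← mem_dec hk, ← mem_dec hk, h]
    rw [bit_iff, bit_iff] at h1
    exact Bool.eq_iff_iff.2 h1
  · push Not at hk
    rw [Nat.testBit_lt_two_pow (hs.trans_le (Nat.pow_le_pow_right (by norm_num) hk)),
      Nat.testBit_lt_two_pow (hs'.trans_le (Nat.pow_le_pow_right (by norm_num) hk))]

lemma image_dec (n : ℕ) : (range (2 ^ bx n)).image (dec n) = (box n).powerset := by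
  apply eq_of_subset_of_card_le
  · intro S hS
    rw [mem_image] at hS
    obtain ⟨s, _, rfl⟩ := hS
    rw [mem_powerset]
    exact dec_sub n s
  · rw [card_powerset, card_box, card_image_of_injOn, card_range]
    intro s hs s' hs' h
    exact dec_inj (mem_range.1 hs) (mem_range.1 hs') h

lemma exists_dec {n : ℕ} {S : Finset (ℤ × ℤ)} (hS : S ⊆ box n) : ∃ s < 2 ^ bx n, dec n s = S := by
  rw [← mem_powerset, ← image_dec, mem_image] at hS
  obtain ⟨s, hs, h⟩ := hS
  exact ⟨s, mem_range.1 hs, h⟩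

lemma adjk_iff (n x y : ℕ) : adjk (2 * n + 1) x y ↔ Adj (cell n x) (cell n y) := by
  unfold adjk Adj cell
  simp only
  omega

lemma lex_cell (n k : ℕ) : lexle 0 (cell n k) ↔
    (n < k / (2 * n + 1) ∨ (n = k / (2 * n + 1) ∧ n ≤ k % (2 * n + 1))) := by
  unfold lexle cell
  simp only [Prod.fst_zero, Prod.snd_zero]
  omega

lemma center_lt (n : ℕ) : n * (2 * n + 1) + n < bx n := by
  unfold bx
  nlinarith

lemma cell_center (n : ℕ) : cell n (n * (2 * n + 1) + n) = 0 := by
  have h1 : (n * (2 * n + 1) + n) % (2 * n + 1) = n := by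
    rw [mul_comm, Nat.mul_add_mod]
    exact Nat.mod_eq_of_lt (by omega)
  have h2 : (n * (2 * n + 1) + n) / (2 * n + 1) = n := by
    rw [mul_comm, Nat.mul_add_div (by omega), Nat.div_eq_of_lt (by omega), add_zero]
  unfold cell
  rw [h1, h2]
  simp

lemma connk_iff {n s : ℕ} (hne : (dec n s).Nonempty) : connk n s ↔ Conn (dec n s) := by
  classical
  constructor
  · intro h
    refine ⟨hne, ?_⟩
    intro X hX hXne hXS
    obtain ⟨a, ha, rfl⟩ := exists_dec (hX.trans (dec_sub n s))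
    obtain ⟨x, hx, y, hy, ⟨hsx, hax⟩, ⟨hsy, hay⟩, hadj⟩ := h a ha ⟨by
        obtain ⟨p, hp⟩ := hXne
        obtain ⟨k, hk, rfl⟩ := exists_cell (dec_sub n a hp)
        exact ⟨k, hk, (mem_dec hk).1 (hX hp), (mem_dec hk).1 hp⟩, by
        have : ∃ p ∈ dec n s, p ∉ dec n a := by
          by_contra hcon
          push Not at hcon
          exact hXS (Subset.antisymm hX hcon)
        obtain ⟨p, hp, hpa⟩ := this
        obtain ⟨k, hk, rfl⟩ := exists_cell (dec_sub n s hp)
        exact ⟨k, hk, (mem_dec hk).1 hp, fun hh => hpa ((mem_dec hk).2 hh)⟩⟩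
    exact ⟨cell n x, (mem_dec hx).2 hax, cell n y, (mem_dec hy).2 hsy,
      fun hh => hay ((mem_dec hy).1 hh), (adjk_iff n x y).1 hadj⟩
  · intro h a _ hh
    obtain ⟨⟨k, hk, hsk, hak⟩, ⟨k', hk', hsk', hak'⟩⟩ := hh
    obtain ⟨x, hx, y, hy, hyX, hxy⟩ := h.2 (dec n s ∩ dec n a) inter_subset_left
      ⟨cell n k, mem_inter.2 ⟨(mem_dec hk).2 hsk, (mem_dec hk).2 hak⟩⟩ (by
        intro hcon
        have : cell n k' ∈ dec n s ∩ dec n a := by rw [hcon]; exact (mem_dec hk').2 hsk'
        exact hak' ((mem_dec hk').1 (mem_inter.1 this).2))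
    rw [mem_inter] at hx
    obtain ⟨kx, hkx, rfl⟩ := exists_cell (dec_sub n s hx.1)
    obtain ⟨ky, hky, rfl⟩ := exists_cell (dec_sub n s hy)
    refine ⟨kx, hkx, ky, hky, ⟨(mem_dec hkx).1 hx.1, (mem_dec hkx).1 hx.2⟩,
      ⟨(mem_dec hky).1 hy, ?_⟩, (adjk_iff n kx ky).2 hxy⟩
    intro hh
    exact hyX (mem_inter.2 ⟨hy, (mem_dec hky).2 hh⟩)

lemma good_iff (n s : ℕ) : good n s ↔ dec n s ∈ Can n := by
  rw [mem_Can]
  unfold good
  rw [← card_dec, ← mem_dec (center_lt n), cell_center]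
  constructor
  · rintro ⟨h1, h2, h3, h4⟩
    refine ⟨h1, h2, (connk_iff ⟨0, h2⟩).1 h4, ?_⟩
    intro p hp
    obtain ⟨k, hk, rfl⟩ := exists_cell (dec_sub n s hp)
    exact (lex_cell n k).2 (h3 k hk ((mem_dec hk).1 hp))
  · rintro ⟨h1, h2, h3, h4⟩
    refine ⟨h1, h2, ?_, (connk_iff ⟨0, h2⟩).2 h3⟩
    intro k hk hb
    exact (lex_cell n k).1 (h4 _ ((mem_dec hk).2 hb))

lemma Can_sub_box {n : ℕ} {S : Finset (ℤ × ℤ)} (hS : S ∈ Can n) : S ⊆ box n := by
  rw [mem_Can] at hS
  intro p hp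
  have := box_bound hS.2.2.1 hS.2.1 hp
  unfold box
  rw [mem_product, mem_Icc, mem_Icc]
  rw [hS.1] at this
  omega

theorem tc_eq (n : ℕ) : tc n = t n := by
  classical
  rw [t_eq]
  unfold tc
  have : Can n = ((range (2 ^ bx n)).filter (good n)).image (dec n) := by
    ext S
    rw [mem_image]
    constructor
    · intro hS
      obtain ⟨s, hs, rfl⟩ := exists_dec (Can_sub_box hS)
      exact ⟨s, mem_filter.2 ⟨mem_range.2 hs, (good_iff n s).2 hS⟩, rfl⟩
    · rintro ⟨s, hs, rfl⟩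
      exact (good_iff n s).1 (mem_filter.1 hs).2
  rw [this, card_image_of_injOn]
  intro s hs s' hs' h
  exact dec_inj (mem_range.1 (mem_filter.1 hs).1) (mem_range.1 (mem_filter.1 hs').1) h

theorem t_primrec : Primrec t := tc_primrec.of_eq tc_eq

open Filter Topology

/-- Bounds on a finite window propagate to all larger sizes. -/
theorem bound_step (n : ℕ) (hn : 1 ≤ n) (L : ℝ) (hL : 0 ≤ L)
    (h : ∀ m, n ≤ m → m ≤ 5 * n + 1 → 576 * (m : ℝ) ^ 2 * rr m ≤ L ^ m) :
    ∀ N, n ≤ N → 576 * (N : ℝ) ^ 2 * rr N ≤ L ^ N := by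
  intro N
  induction N using Nat.strong_induction_on with
  | _ N ih =>
    intro hnN
    by_cases hN : N ≤ 5 * n + 1
    · exact h N hnN hN
    push Not at hN
    have hN0 : (0 : ℝ) < N := by exact_mod_cast (by omega : 0 < N)
    set F := (range (N + 1)).filter (fun m => N ≤ 5 * m + 1 ∧ 2 * m ≤ N) with hF
    have h1 : (rr N : ℝ) ≤ ∑ m ∈ F, (4 * (N : ℝ) * ((rr m : ℝ) * (rr (N - m) : ℝ))) := by
      have := rr_le N (by omega)
      exact_mod_cast this
    have hterm : ∀ m ∈ F, (N : ℝ) * (576 * (N : ℝ) ^ 2 *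
        (4 * (N : ℝ) * ((rr m : ℝ) * (rr (N - m) : ℝ)))) ≤ L ^ N := by
      intro m hm
      rw [hF, mem_filter, mem_range] at hm
      obtain ⟨_, hm1, hm2⟩ := hm
      have i1 := ih m (by omega) (by omega)
      have i2 := ih (N - m) (by omega) (by omega)
      have hcast : ((N - m : ℕ) : ℝ) = (N : ℝ) - (m : ℝ) := by rw [Nat.cast_sub (by omega)]
      rw [hcast] at i2
      have hm1' : (N : ℝ) ≤ 6 * (m : ℝ) := by
        have : N ≤ 6 * m := by omega
        exact_mod_cast this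
      have hm2' : 2 * (m : ℝ) ≤ (N : ℝ) := by exact_mod_cast hm2
      have hm0 : (0 : ℝ) ≤ (m : ℝ) := Nat.cast_nonneg m
      have hpow : L ^ m * L ^ (N - m) = L ^ N := by rw [← pow_add]; congr 1; omega
      have hp0 : (0 : ℝ) ≤ L ^ m := by positivity
      have hr1 : (0 : ℝ) ≤ (rr m : ℝ) := Nat.cast_nonneg _
      have hr2 : (0 : ℝ) ≤ (rr (N - m) : ℝ) := Nat.cast_nonneg _
      rw [← hpow]
      generalize (rr m : ℝ) = p at *
      generalize (rr (N - m) : ℝ) = q at *
      generalize (m : ℝ) = x at *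
      generalize (N : ℝ) = y at *
      have hNm : y ^ 2 ≤ 12 * (x * (y - x)) := by nlinarith
      have hN4 : y ^ 4 ≤ 144 * (x ^ 2 * (y - x) ^ 2) := by
        calc y ^ 4 = (y ^ 2) ^ 2 := by ring
          _ ≤ (12 * (x * (y - x))) ^ 2 := pow_le_pow_left₀ (by positivity) hNm 2
          _ = 144 * (x ^ 2 * (y - x) ^ 2) := by ring
      have hr : (0 : ℝ) ≤ p * q := by positivity
      calc y * (576 * y ^ 2 * (4 * y * (p * q)))
          = 2304 * (y ^ 4 * (p * q)) := by ring
        _ ≤ 2304 * ((144 * (x ^ 2 * (y - x) ^ 2)) * (p * q)) := by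
            apply mul_le_mul_of_nonneg_left _ (by norm_num)
            exact mul_le_mul_of_nonneg_right hN4 hr
        _ = (576 * x ^ 2 * p) * (576 * (y - x) ^ 2 * q) := by ring
        _ ≤ L ^ m * L ^ (N - m) := by
            apply mul_le_mul i1 i2 (by positivity) hp0
    have hFcard : (F.card : ℝ) ≤ (N : ℝ) := by
      have : F ⊆ range N := by
        intro m hm
        rw [hF, mem_filter, mem_range] at hm
        rw [mem_range]
        omega
      have := card_le_card this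
      rw [card_range] at this
      exact_mod_cast this
    have h2 : (N : ℝ) * (576 * (N : ℝ) ^ 2 * (rr N : ℝ)) ≤ (N : ℝ) * L ^ N := by
      calc (N : ℝ) * (576 * (N : ℝ) ^ 2 * (rr N : ℝ))
          ≤ (N : ℝ) * (576 * (N : ℝ) ^ 2 *
              ∑ m ∈ F, (4 * (N : ℝ) * ((rr m : ℝ) * (rr (N - m) : ℝ)))) := by
            apply mul_le_mul_of_nonneg_left _ hN0.le
            apply mul_le_mul_of_nonneg_left h1 (by positivity)
        _ = ∑ m ∈ F, (N : ℝ) * (576 * (N : ℝ) ^ 2 *
              (4 * (N : ℝ) * ((rr m : ℝ) * (rr (N - m) : ℝ)))) := by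
            rw [mul_sum, mul_sum]
        _ ≤ ∑ m ∈ F, L ^ N := sum_le_sum hterm
        _ = (F.card : ℝ) * L ^ N := by rw [sum_const, nsmul_eq_mul]
        _ ≤ (N : ℝ) * L ^ N := mul_le_mul_of_nonneg_right hFcard (by positivity)
    exact le_of_mul_le_mul_left h2 hN0

lemma t_zero : t 0 = 0 := by
  have := (t_le_rr 0).trans (rr_le_t 0)
  omega

/-- a crude exponential upper bound -/
lemma exists_crude : ∃ L : ℝ, 1 ≤ L ∧ ∀ n, 1 ≤ n → (t n : ℝ) ≤ L ^ n := by
  set L : ℝ := 576 * 36 * (∑ m ∈ range 7, (rr m : ℝ)) + 1 with hLdef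
  have hL1 : 1 ≤ L := by
    rw [hLdef]
    have : (0 : ℝ) ≤ ∑ m ∈ range 7, (rr m : ℝ) := sum_nonneg (fun _ _ => Nat.cast_nonneg _)
    linarith
  refine ⟨L, hL1, ?_⟩
  have key := bound_step 1 le_rfl L (by linarith) (by
    intro m hm1 hm6
    have h1 : (rr m : ℝ) ≤ ∑ m ∈ range 7, (rr m : ℝ) :=
      single_le_sum (f := fun m => (rr m : ℝ)) (fun _ _ => Nat.cast_nonneg _)
        (mem_range.2 (by omega))
    have h2 : (m : ℝ) ^ 2 ≤ 36 := by
      have : (m : ℝ) ≤ 6 := by exact_mod_cast (by omega : m ≤ 6)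
      have h0 : (0 : ℝ) ≤ m := Nat.cast_nonneg m
      nlinarith
    calc 576 * (m : ℝ) ^ 2 * rr m ≤ 576 * 36 * (∑ m ∈ range 7, (rr m : ℝ)) := by
          apply mul_le_mul _ h1 (Nat.cast_nonneg _) (by norm_num)
          linarith
      _ ≤ L := by rw [hLdef]; linarith
      _ = L ^ 1 := (pow_one L).symm
      _ ≤ L ^ m := pow_le_pow_right₀ hL1 hm1)
  intro n hn
  have h3 := key n hn
  have h4 : (t n : ℝ) ≤ rr n := by exact_mod_cast t_le_rr n
  have h5 : (1 : ℝ) ≤ n := by exact_mod_cast hn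
  have h6 : (0 : ℝ) ≤ rr n := Nat.cast_nonneg _
  have h7 : (rr n : ℝ) ≤ 576 * (n : ℝ) ^ 2 * rr n := by
    have : (1 : ℝ) ≤ 576 * (n : ℝ) ^ 2 := by nlinarith
    nlinarith
  linarith

lemma subadd : Subadditive (fun n : ℕ => -Real.log (t n)) := by
  intro m n
  rcases Nat.eq_zero_or_pos m with rfl | hm
  · simp [t_zero]
  rcases Nat.eq_zero_or_pos n with rfl | hn
  · simp [t_zero]
  have h1 : (0 : ℝ) < t m := by exact_mod_cast t_pos hm
  have h2 : (0 : ℝ) < t n := by exact_mod_cast t_pos hn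
  have h3 : (t m : ℝ) * t n ≤ t (m + n) := by exact_mod_cast t_mul_le m n
  have h4 := Real.log_le_log (mul_pos h1 h2) h3
  rw [Real.log_mul h1.ne' h2.ne'] at h4
  linarith

lemma bddBelow : BddBelow (Set.range fun n : ℕ => -Real.log (t n) / n) := by
  obtain ⟨L, hL1, hL⟩ := exists_crude
  refine ⟨-Real.log L, ?_⟩
  rintro _ ⟨n, rfl⟩
  rcases Nat.eq_zero_or_pos n with rfl | hn
  · simp only [Nat.cast_zero, div_zero]
    have := Real.log_nonneg hL1
    linarith
  have h1 : (0 : ℝ) < t n := by exact_mod_cast t_pos hn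
  have h2 := Real.log_le_log h1 (hL n hn)
  rw [Real.log_pow] at h2
  have h3 : (0 : ℝ) < n := by exact_mod_cast hn
  simp only
  rw [le_div_iff₀ h3]
  linarith

/-- Klarner's constant: existence of the limit, positivity and `t n ≤ λ ^ n`. -/
theorem exists_lam : ∃ lam : ℝ, 0 < lam ∧
    Tendsto (fun n : ℕ => (t n : ℝ) ^ (1 / (n : ℝ))) atTop (𝓝 lam) ∧
    ∀ n : ℕ, (t n : ℝ) ≤ lam ^ n := by
  have hlim := subadd.tendsto_lim bddBelow
  refine ⟨Real.exp (-subadd.lim), Real.exp_pos _, ?_, ?_⟩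
  · have h1 : Tendsto (fun n : ℕ => Real.exp (-(-Real.log (t n) / n))) atTop
        (𝓝 (Real.exp (-subadd.lim))) := (Real.continuous_exp.tendsto _).comp hlim.neg
    refine h1.congr' ?_
    filter_upwards [eventually_ge_atTop 1] with n hn
    have h2 : (0 : ℝ) < t n := by exact_mod_cast t_pos hn
    rw [Real.rpow_def_of_pos h2]
    congr 1
    ring
  · intro n
    rcases Nat.eq_zero_or_pos n with rfl | hn
    · simp [t_zero]
    have h2 : (0 : ℝ) < t n := by exact_mod_cast t_pos hn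
    have h3 := subadd.lim_le_div bddBelow (n := n) (by omega)
    have h4 : (0 : ℝ) < n := by exact_mod_cast hn
    rw [le_div_iff₀ h4] at h3
    rw [← Real.exp_nat_mul, ← Real.log_le_iff_le_exp h2]
    linarith

/-- finite windows bound the growth constant -/
theorem lam_le_of_window {lam : ℝ}
    (hlim : Tendsto (fun n : ℕ => (t n : ℝ) ^ (1 / (n : ℝ))) atTop (𝓝 lam))
    (n : ℕ) (hn : 1 ≤ n) (L : ℝ) (hL : 0 ≤ L)
    (h : ∀ m, n ≤ m → m ≤ 5 * n + 1 → 576 * (m : ℝ) ^ 3 * t m ≤ L ^ m) : lam ≤ L := by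
  have key := bound_step n hn L hL (by
    intro m h1 h2
    refine le_trans ?_ (h m h1 h2)
    have : (rr m : ℝ) ≤ m * t m := by exact_mod_cast rr_le_t m
    calc 576 * (m : ℝ) ^ 2 * rr m ≤ 576 * (m : ℝ) ^ 2 * (m * t m) := by
          apply mul_le_mul_of_nonneg_left this (by positivity)
      _ = 576 * (m : ℝ) ^ 3 * t m := by ring)
  apply le_of_tendsto hlim
  filter_upwards [eventually_ge_atTop n] with N hN
  have h3 := key N hN
  have h4 : (t N : ℝ) ≤ rr N := by exact_mod_cast t_le_rr N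
  have h5 : (1 : ℝ) ≤ N := by exact_mod_cast (hn.trans hN)
  have h6 : (0 : ℝ) ≤ rr N := Nat.cast_nonneg _
  have h7 : (rr N : ℝ) ≤ 576 * (N : ℝ) ^ 2 * rr N := by
    have : (1 : ℝ) ≤ 576 * (N : ℝ) ^ 2 := by nlinarith
    nlinarith
  have h8 : (t N : ℝ) ≤ L ^ N := by linarith
  calc (t N : ℝ) ^ (1 / (N : ℝ)) ≤ (L ^ N) ^ (1 / (N : ℝ)) :=
        Real.rpow_le_rpow (Nat.cast_nonneg _) h8 (by positivity)
    _ = L := by
        rw [one_div]
        exact Real.pow_rpow_inv_natCast hL (by omega)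

/-- a polynomial lower bound for `t m` in every window `[n, 5n+1]` -/
theorem exists_window {lam : ℝ} (hpos : 0 < lam)
    (hlim : Tendsto (fun n : ℕ => (t n : ℝ) ^ (1 / (n : ℝ))) atTop (𝓝 lam))
    (n : ℕ) (hn : 1 ≤ n) : ∃ m, n ≤ m ∧ m ≤ 5 * n + 1 ∧ lam ^ m ≤ 576 * (m : ℝ) ^ 3 * t m := by
  by_contra hcon
  push Not at hcon
  -- choose L < lam
  have hne : (Icc n (5 * n + 1)).Nonempty := ⟨n, by rw [mem_Icc]; omega⟩
  obtain ⟨m0, hm0, hmax⟩ := exists_max_image (Icc n (5 * n + 1))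
    (fun m : ℕ => (576 * (m : ℝ) ^ 3 * t m) ^ (1 / (m : ℝ))) hne
  rw [mem_Icc] at hm0
  have h0 : ∀ m : ℕ, (0 : ℝ) ≤ 576 * (m : ℝ) ^ 3 * t m := fun m => by positivity
  have hle := lam_le_of_window hlim n hn ((576 * (m0 : ℝ) ^ 3 * t m0) ^ (1 / (m0 : ℝ)))
    (Real.rpow_nonneg (h0 _) _) (by
      intro m h1 h2
      have h3 := hmax m (by rw [mem_Icc]; omega)
      calc 576 * (m : ℝ) ^ 3 * t m = ((576 * (m : ℝ) ^ 3 * t m) ^ (1 / (m : ℝ))) ^ m := by
            rw [one_div]
            exact (Real.rpow_inv_natCast_pow (h0 m) (by omega)).symm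
        _ ≤ _ := pow_le_pow_left₀ (Real.rpow_nonneg (h0 _) _) h3 m)
  have h4 := hcon m0 hm0.1 hm0.2
  have h5 : (576 * (m0 : ℝ) ^ 3 * t m0) ^ (1 / (m0 : ℝ)) < lam := by
    calc (576 * (m0 : ℝ) ^ 3 * t m0) ^ (1 / (m0 : ℝ)) < (lam ^ m0) ^ (1 / (m0 : ℝ)) := by
          apply Real.rpow_lt_rpow (h0 _) h4
          have : (0 : ℝ) < m0 := by exact_mod_cast (by omega : 0 < m0)
          positivity
      _ = lam := by
          rw [one_div]
          exact Real.pow_rpow_inv_natCast hpos.le (by omega)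
  linarith

lemma Ok.mono {n a b : ℕ} (h : Ok n a) (hab : a ≤ b) : Ok n b := fun m hm =>
  (h m hm).trans (Nat.pow_le_pow_left hab m)

/-- an explicit element -/
def Bd (n : ℕ) : ℕ :=
  576 * (5 * (n + 1) + 1) ^ 3 * 2 ^ bx (5 * (n + 1) + 1) * 2 ^ (n * (5 * (n + 1) + 1))

lemma t_le_two_pow (m : ℕ) : t m ≤ 2 ^ bx m := by
  classical
  rw [← tc_eq]
  unfold tc
  refine (card_filter_le _ _).trans ?_
  rw [card_range]

lemma ok_Bd (n : ℕ) : Ok n (Bd n) := by
  intro m hm
  rw [mem_Icc] at hm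
  have h1 : 576 * m ^ 3 * t m * 2 ^ (n * m) ≤ Bd n := by
    unfold Bd
    have hb : bx m ≤ bx (5 * (n + 1) + 1) := by
      unfold bx
      exact Nat.pow_le_pow_left (by omega) 2
    have h2 : t m ≤ 2 ^ bx (5 * (n + 1) + 1) :=
      (t_le_two_pow m).trans (Nat.pow_le_pow_right (by norm_num) hb)
    have h3 : m ^ 3 ≤ (5 * (n + 1) + 1) ^ 3 := Nat.pow_le_pow_left hm.2 3
    have h4 : 2 ^ (n * m) ≤ 2 ^ (n * (5 * (n + 1) + 1)) :=
      Nat.pow_le_pow_right (by norm_num) (Nat.mul_le_mul_left n hm.2)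
    gcongr
  exact h1.trans (Nat.le_self_pow (by omega) _)

lemma num_ok (n : ℕ) : Ok n (num n) := Nat.sInf_mem (s := {a : ℕ | Ok n a}) ⟨_, ok_Bd n⟩

lemma num_le {n a : ℕ} (h : Ok n a) : num n ≤ a := Nat.sInf_le h

lemma ok_iff_num_le (n a : ℕ) : Ok n a ↔ num n ≤ a := ⟨num_le, fun h => (num_ok n).mono h⟩

lemma ok_primrec : PrimrecRel Ok := by
  have h0 : Primrec (fun p : ℕ × ℕ => 5 * (p.1 + 1) + 2) :=
    Primrec.nat_add.comp (Primrec.nat_mul.comp (.const 5) (Primrec.succ.comp Primrec.fst))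
      (.const 2)
  have v1 : Primrec (fun r : (ℕ × ℕ) × ℕ => r.1.1) := Primrec.fst.comp Primrec.fst
  have v2 : Primrec (fun r : (ℕ × ℕ) × ℕ => r.1.2) := Primrec.snd.comp Primrec.fst
  have v3 : Primrec (fun r : (ℕ × ℕ) × ℕ => r.2) := Primrec.snd
  have h1 : PrimrecPred (fun r : (ℕ × ℕ) × ℕ => r.1.1 + 1 ≤ r.2) :=
    Primrec.nat_le.comp (Primrec.succ.comp v1) v3
  have h2 : PrimrecPred (fun r : (ℕ × ℕ) × ℕ =>
      576 * r.2 ^ 3 * t r.2 * 2 ^ (r.1.1 * r.2) ≤ r.1.2 ^ r.2) := by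
    refine Primrec.nat_le.comp ?_ (primrec_pow.comp v2 v3)
    refine Primrec.nat_mul.comp (Primrec.nat_mul.comp (Primrec.nat_mul.comp (.const 576)
      (primrec_pow.comp v3 (.const 3))) (t_primrec.comp v3)) ?_
    exact primrec_pow.comp (.const 2) (Primrec.nat_mul.comp v1 v3)
  have h3 : PrimrecPred (fun p : ℕ × ℕ => ∀ m < 5 * (p.1 + 1) + 2,
      (¬ (p.1 + 1 ≤ m) ∨ 576 * m ^ 3 * t m * 2 ^ (p.1 * m) ≤ p.2 ^ m)) :=
    ball (α := ℕ × ℕ) (f := fun p => 5 * (p.1 + 1) + 2)
      (R := fun p m => ¬ (p.1 + 1 ≤ m) ∨ 576 * m ^ 3 * t m * 2 ^ (p.1 * m) ≤ p.2 ^ m) h0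
      (h1.not.or h2)
  refine h3.of_eq ?_
  rintro ⟨n, a⟩
  simp only [Ok, mem_Icc]
  constructor
  · intro h m hm
    rcases h m (by omega) with h' | h'
    · omega
    · exact h'
  · intro h m hm
    by_cases h' : n + 1 ≤ m
    · exact Or.inr (h m ⟨h', by omega⟩)
    · exact Or.inl h'

lemma Bd_primrec : Primrec Bd := by
  have hM : Primrec (fun n : ℕ => 5 * (n + 1) + 1) :=
    Primrec.succ.comp (Primrec.nat_mul.comp (.const 5) Primrec.succ)
  exact Primrec.nat_mul.comp (Primrec.nat_mul.comp (Primrec.nat_mul.comp (.const 576)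
    (primrec_pow.comp hM (.const 3))) (primrec_pow.comp (.const 2) (bx_primrec.comp hM)))
    (primrec_pow.comp (.const 2) (Primrec.nat_mul.comp .id hM))

lemma num_primrec : Primrec num := by
  classical
  have h := bcount (α := ℕ) (f := Bd) (R := fun n a => ¬ Ok n a) Bd_primrec ok_primrec.not
  refine h.of_eq ?_
  intro n
  have : (range (Bd n)).filter (fun a => ¬ Ok n a) = range (num n) := by
    ext a
    rw [mem_filter, mem_range, mem_range, ok_iff_num_le, not_le]
    have := num_le (ok_Bd n)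
    constructor
    · exact fun h => h.2
    · intro h
      exact ⟨h.trans_le this, h⟩
  rw [this, card_range]

lemma best_primrec : Primrec best := by
  have h : Primrec₂ (fun (n IH : ℕ) => min (2 * IH) (num (n + 1))) :=
    Primrec.nat_min.comp (Primrec.nat_mul.comp (.const 2) Primrec.snd)
      (num_primrec.comp (Primrec.succ.comp Primrec.fst))
  refine (Primrec.nat_rec₁ (num 0) h).of_eq ?_
  intro n
  induction n with
  | zero => rfl
  | succ n ih =>
    change min (2 * _) (num (n + 1)) = min (2 * best n) (num (n + 1))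
    rw [← ih]

lemma best_le_num (n : ℕ) : best n ≤ num n := by
  cases n with
  | zero => exact le_rfl
  | succ n => exact min_le_right _ _

lemma beta_strictAnti : StrictAnti beta := by
  apply strictAnti_nat_of_succ_lt
  intro n
  unfold beta
  have h1 : best (n + 1) ≤ 2 * best n := min_le_left _ _
  rw [div_lt_div_iff₀ (by positivity) (by positivity), pow_succ]
  have h2 : ((best (n + 1) + 1 : ℕ) : ℚ) < ((best n + 1 : ℕ) : ℚ) * 2 := by
    exact_mod_cast (by omega : best (n + 1) + 1 < (best n + 1) * 2)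
  have h3 : (0 : ℚ) < 2 ^ n := by positivity
  nlinarith

section conv

variable {lam : ℝ} (hpos : 0 < lam)
  (hlim : Tendsto (fun n : ℕ => (t n : ℝ) ^ (1 / (n : ℝ))) atTop (𝓝 lam))
  (hle : ∀ n : ℕ, (t n : ℝ) ≤ lam ^ n)

include hlim in
lemma lam_le_num (n : ℕ) : lam ≤ (num n : ℝ) / 2 ^ n := by
  apply lam_le_of_window hlim (n + 1) (by omega) _ (by positivity)
  intro m h1 h2
  have h3 := num_ok n m (by rw [mem_Icc]; omega)
  have h4 : 576 * (m : ℝ) ^ 3 * t m * 2 ^ (n * m) ≤ (num n : ℝ) ^ m := by exact_mod_cast h3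
  rw [div_pow, ← pow_mul, le_div_iff₀ (by positivity)]
  exact h4

include hlim in
lemma lam_le_best (n : ℕ) : lam ≤ (best n : ℝ) / 2 ^ n := by
  induction n with
  | zero => exact lam_le_num hlim 0
  | succ n ih =>
    have h1 := lam_le_num hlim (n + 1)
    change lam ≤ ((min (2 * best n) (num (n + 1)) : ℕ) : ℝ) / 2 ^ (n + 1)
    rcases min_choice (2 * best n) (num (n + 1)) with h | h
    · rw [h]
      push_cast
      rw [pow_succ, mul_comm (2 : ℝ) (best n : ℝ), mul_div_mul_right _ _ (by norm_num)]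
      exact ih
    · rw [h]
      exact h1

include hlim in
lemma lam_lt_beta (n : ℕ) : lam < (beta n : ℝ) := by
  have h1 := lam_le_best hlim n
  have h2 : (beta n : ℝ) = ((best n : ℝ) + 1) / 2 ^ n := by
    unfold beta
    push_cast
    ring
  rw [h2, add_div]
  have : (0 : ℝ) < 1 / 2 ^ n := by positivity
  linarith

include hpos hle in
lemma beta_le_of (n : ℕ) (δ : ℝ) (hδ : 0 < δ)
    (h : ∀ m : ℕ, n + 1 ≤ m → 576 * (m : ℝ) ^ 3 ≤ (1 + δ) ^ m) :
    (beta n : ℝ) ≤ lam * (1 + δ) + 2 / 2 ^ n := by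
  have hnn : 0 ≤ lam * (1 + δ) * 2 ^ n := by positivity
  have h1 : Ok n ⌈lam * (1 + δ) * 2 ^ n⌉₊ := by
    intro m hm
    rw [mem_Icc] at hm
    have h2 : 576 * (m : ℝ) ^ 3 * t m * 2 ^ (n * m) ≤ (⌈lam * (1 + δ) * 2 ^ n⌉₊ : ℝ) ^ m := by
      calc 576 * (m : ℝ) ^ 3 * t m * 2 ^ (n * m)
          ≤ (1 + δ) ^ m * lam ^ m * 2 ^ (n * m) := by
            apply mul_le_mul_of_nonneg_right _ (by positivity)
            exact mul_le_mul (h m hm.1) (hle m) (Nat.cast_nonneg _) (by positivity)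
        _ = (lam * (1 + δ) * 2 ^ n) ^ m := by
            rw [mul_pow, mul_pow, ← pow_mul]; ring
        _ ≤ (⌈lam * (1 + δ) * 2 ^ n⌉₊ : ℝ) ^ m := pow_le_pow_left₀ hnn (Nat.le_ceil _) m
    exact_mod_cast h2
  have h3 := (best_le_num n).trans (num_le h1)
  have h4 : (best n : ℝ) ≤ lam * (1 + δ) * 2 ^ n + 1 := by
    have h5 : (best n : ℝ) ≤ (⌈lam * (1 + δ) * 2 ^ n⌉₊ : ℝ) := by exact_mod_cast h3
    have h6 := (Nat.ceil_lt_add_one hnn).le
    linarith
  have h2 : (beta n : ℝ) = ((best n : ℝ) + 1) / 2 ^ n := by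
    unfold beta
    push_cast
    ring
  rw [h2, div_le_iff₀ (by positivity)]
  have h7 : (2 : ℝ) / 2 ^ n * 2 ^ n = 2 := div_mul_cancel₀ _ (by positivity)
  nlinarith

lemma pow_bound (k : ℕ) (hk : 576 ≤ k) (hk1 : 8 * Real.log k / k ≤ 1) (m : ℕ) (hm : k ≤ m) :
    576 * (m : ℝ) ^ 3 ≤ (1 + 8 * Real.log k / k) ^ m := by
  have hk' : (576 : ℝ) ≤ k := by exact_mod_cast hk
  have hm' : (k : ℝ) ≤ m := by exact_mod_cast hm
  have hk0 : (0 : ℝ) < k := by linarith
  have hm0 : (0 : ℝ) < m := by linarith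
  have hlogk : 0 ≤ Real.log k := Real.log_nonneg (by linarith)
  have hδ0 : 0 ≤ 8 * Real.log k / k := by positivity
  set δ := 8 * Real.log k / k with hδ
  have h1 : 2 * δ / (δ + 2) ≤ Real.log (1 + δ) := Real.le_log_one_add_of_nonneg hδ0
  have h2 : δ / 2 ≤ 2 * δ / (δ + 2) := by
    rw [div_le_div_iff₀ (by norm_num) (by linarith)]
    nlinarith
  have h3 : Real.log m / m ≤ Real.log k / k := by
    have he : Real.exp 1 ≤ k := by
      have := Real.exp_one_lt_d9
      linarith
    exact Real.log_div_self_antitoneOn he (le_trans he hm') hm'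
  have h4 : Real.log 576 ≤ Real.log m := Real.log_le_log (by norm_num) (by linarith)
  have h5 : Real.log (576 * (m : ℝ) ^ 3) ≤ m * Real.log (1 + δ) := by
    rw [Real.log_mul (by norm_num) (by positivity), Real.log_pow]
    have h6 : Real.log m ≤ m * (Real.log k / k) := by
      rw [div_le_iff₀ hm0] at h3
      linarith
    have h7 : (m : ℝ) * (δ / 2) ≤ m * Real.log (1 + δ) :=
      mul_le_mul_of_nonneg_left (h2.trans h1) hm0.le
    have h8 : (m : ℝ) * (δ / 2) = 4 * (m * (Real.log k / k)) := by rw [hδ]; ring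
    push_cast
    linarith
  have h9 : 576 * (m : ℝ) ^ 3 = Real.exp (Real.log (576 * (m : ℝ) ^ 3)) :=
    (Real.exp_log (by positivity)).symm
  rw [h9]
  calc Real.exp (Real.log (576 * (m : ℝ) ^ 3)) ≤ Real.exp (m * Real.log (1 + δ)) :=
        Real.exp_le_exp.2 h5
    _ = (1 + δ) ^ m := by
        rw [Real.exp_nat_mul, Real.exp_log (by linarith)]

include hpos hle in
lemma beta_rate : ∀ᶠ n : ℕ in atTop, (beta n : ℝ) ≤ lam + (8 * lam + 2) * (Real.log n / n) := by
  have hlog : Tendsto (fun n : ℕ => Real.log n / n) atTop (𝓝 0) :=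
    (Real.isLittleO_log_id_atTop.tendsto_div_nhds_zero).comp tendsto_natCast_atTop_atTop
  have h8 : ∀ᶠ n : ℕ in atTop, Real.log n / n < 1 / 8 := hlog.eventually_lt_const (by norm_num)
  filter_upwards [eventually_ge_atTop 576, h8] with n hn h8n
  have hn' : (576 : ℝ) ≤ n := by exact_mod_cast hn
  have he : Real.exp 1 ≤ n := by
    have := Real.exp_one_lt_d9
    linarith
  have h1 : Real.log ((n + 1 : ℕ) : ℝ) / ((n + 1 : ℕ) : ℝ) ≤ Real.log n / n := by
    apply Real.log_div_self_antitoneOn he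
    · change Real.exp 1 ≤ ((n + 1 : ℕ) : ℝ)
      push_cast; linarith
    · push_cast; linarith
  have h2 := beta_le_of hpos hle n (8 * Real.log ((n + 1 : ℕ) : ℝ) / ((n + 1 : ℕ) : ℝ)) (by
    have : 0 < Real.log ((n + 1 : ℕ) : ℝ) := Real.log_pos (by push_cast; linarith)
    positivity) (by
    intro m hm
    apply pow_bound (n + 1) (by omega) _ m hm
    rw [mul_div_assoc]
    linarith)
  rw [mul_div_assoc] at h2
  have h3 : (2 : ℝ) / 2 ^ n ≤ 2 * (Real.log n / n) := by
    have h4 : (n : ℝ) ≤ 2 ^ n := by exact_mod_cast Nat.lt_two_pow_self.le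
    have h5 : (1 : ℝ) ≤ Real.log n := by
      rw [Real.le_log_iff_exp_le (by linarith)]
      exact he
    have hn0 : (0 : ℝ) < n := by linarith
    rw [div_le_iff₀ (by positivity)]
    have h6 : 1 ≤ Real.log n / n * 2 ^ n := by
      calc (1 : ℝ) ≤ Real.log n := h5
        _ = Real.log n / n * n := by field_simp
        _ ≤ Real.log n / n * 2 ^ n := mul_le_mul_of_nonneg_left h4 (by positivity)
    linarith
  have h7 : lam * (8 * (Real.log ((n + 1 : ℕ) : ℝ) / ((n + 1 : ℕ) : ℝ))) ≤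
      lam * (8 * (Real.log n / n)) := by
    apply mul_le_mul_of_nonneg_left _ hpos.le
    linarith
  linarith

include hpos hlim hle in
lemma beta_tendsto : Tendsto (fun n => (beta n : ℝ)) atTop (𝓝 lam) := by
  have hlog : Tendsto (fun n : ℕ => Real.log n / n) atTop (𝓝 0) :=
    (Real.isLittleO_log_id_atTop.tendsto_div_nhds_zero).comp tendsto_natCast_atTop_atTop
  have h1 : Tendsto (fun n : ℕ => lam + (8 * lam + 2) * (Real.log n / n)) atTop (𝓝 lam) := by
    have := (hlog.const_mul (8 * lam + 2)).const_add lam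
    simpa using this
  apply tendsto_of_tendsto_of_tendsto_of_le_of_le' tendsto_const_nhds h1
  · exact Eventually.of_forall (fun n => (lam_lt_beta hlim n).le)
  · exact beta_rate hpos hle

end conv

end Pool.Agent.Helper47.Klarner
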